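import Pool.Agent.H61.HB.Stmts2

/-!
Row NEI of the board hbg (MP_91403e_an): the differential inequality for the difference of two solutions in the
weak norm.
-/

set_option autoImplicit false

namespace HB

/-- Young's inequality for all the terms -/
theorem nei_young (A B ν n m p q f g r : ℝ) (hA : 0 ≤ A) (hB : 0 ≤ B) (hν : 0 < ν) (hn : 0 ≤ n) (hm : 0 ≤ m)
    (hp : 0 ≤ p) (hf : 0 ≤ f) (hr : r ^ 2 = n * p) (hqp : q ≤ p) (hnp : n ≤ p)
    (hfg : f ≤ g) (h1 : 16 * A * n ≤ ν) (h2 : 16 * B * m ≤ ν) :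
    2 * (A * (n * p ^ 2 + f * r * p + g * (n * p) + m * (g * n))) +
      2 * (B * m * (q * p + q * g + f * p)) ≤
      ν * p ^ 2 + (1024 * A ^ 4 + 8 * A ^ 2 + 16 * B ^ 2) * (f ^ 4 / ν ^ 3 + g ^ 2 / ν) * (n ^ 2 + m ^ 2) := by
  have hg : 0 ≤ g := hf.trans hfg
  have hp2 : 0 ≤ p ^ 2 := sq_nonneg p
  -- a general form of Young
  have Y : ∀ a b : ℝ, 2 * (a * b) ≤ ν * b ^ 2 / 8 + 8 * a ^ 2 / ν := by
    intro a b
    have h : 0 ≤ ν / 8 * (b - 8 * a / ν) ^ 2 := by positivity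
    have e : ν / 8 * (b - 8 * a / ν) ^ 2 = ν * b ^ 2 / 8 + 8 * a ^ 2 / ν - 2 * (a * b) := by
      field_simp
      ring
    linarith
  have Y2 : ∀ a b : ℝ, 2 * (a * b) ≤ ν * b ^ 2 / 16 + 16 * a ^ 2 / ν := by
    intro a b
    have h : 0 ≤ ν / 16 * (b - 16 * a / ν) ^ 2 := by positivity
    have e : ν / 16 * (b - 16 * a / ν) ^ 2 = ν * b ^ 2 / 16 + 16 * a ^ 2 / ν - 2 * (a * b) := by
      field_simp
      ring
    linarith
  have T1 : 2 * (A * (n * p ^ 2)) ≤ ν * p ^ 2 / 8 := by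
    have : 16 * A * n * p ^ 2 ≤ ν * p ^ 2 := mul_le_mul_of_nonneg_right h1 hp2
    linarith
  have T2 : 2 * (A * (f * r * p)) ≤ ν * p ^ 2 / 8 + 1024 * A ^ 4 * f ^ 4 * n ^ 2 / ν ^ 3 := by
    have e1 := Y2 (A * f * r) p
    have e2 := Y2 (8 * A ^ 2 * f ^ 2 * n / ν) p
    have e3 : 16 * (A * f * r) ^ 2 / ν = 2 * (8 * A ^ 2 * f ^ 2 * n / ν * p) := by
      rw [mul_pow, mul_pow, hr]
      field_simp
      ring
    have e4 : 16 * (8 * A ^ 2 * f ^ 2 * n / ν) ^ 2 / ν = 1024 * A ^ 4 * f ^ 4 * n ^ 2 / ν ^ 3 := by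
      field_simp
      ring
    rw [e3] at e1
    rw [e4] at e2
    have e5 : 2 * (A * (f * r * p)) = 2 * (A * f * r * p) := by ring
    linarith
  have T3 : 2 * (A * (g * (n * p))) ≤ ν * p ^ 2 / 8 + 8 * A ^ 2 * g ^ 2 * n ^ 2 / ν := by
    have e1 := Y (A * g * n) p
    have e2 : 8 * (A * g * n) ^ 2 / ν = 8 * A ^ 2 * g ^ 2 * n ^ 2 / ν := by ring
    rw [e2] at e1
    have e5 : 2 * (A * (g * (n * p))) = 2 * (A * g * n * p) := by ring
    linarith
  have T4 : 2 * (A * (m * (g * n))) ≤ ν * p ^ 2 / 8 + 8 * A ^ 2 * g ^ 2 * m ^ 2 / ν := by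
    have e1 := Y (A * g * m) p
    have e2 : 8 * (A * g * m) ^ 2 / ν = 8 * A ^ 2 * g ^ 2 * m ^ 2 / ν := by ring
    rw [e2] at e1
    have e5 : A * g * m * n ≤ A * g * m * p := mul_le_mul_of_nonneg_left hnp (by positivity)
    have e6 : 2 * (A * (m * (g * n))) = 2 * (A * g * m * n) := by ring
    linarith
  have T5 : 2 * (B * m * (q * p)) ≤ ν * p ^ 2 / 8 := by
    have e1 : q * p ≤ p ^ 2 := by nlinarith
    have e2 : B * m * (q * p) ≤ B * m * p ^ 2 := mul_le_mul_of_nonneg_left e1 (by positivity)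
    have e3 : 16 * B * m * p ^ 2 ≤ ν * p ^ 2 := mul_le_mul_of_nonneg_right h2 hp2
    linarith
  have T6 : 2 * (B * m * (q * g)) ≤ ν * p ^ 2 / 8 + 8 * B ^ 2 * g ^ 2 * m ^ 2 / ν := by
    have e1 := Y (B * g * m) p
    have e2 : 8 * (B * g * m) ^ 2 / ν = 8 * B ^ 2 * g ^ 2 * m ^ 2 / ν := by ring
    rw [e2] at e1
    have e5 : B * g * m * q ≤ B * g * m * p := mul_le_mul_of_nonneg_left hqp (by positivity)
    have e6 : 2 * (B * m * (q * g)) = 2 * (B * g * m * q) := by ring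
    linarith
  have T7 : 2 * (B * m * (f * p)) ≤ ν * p ^ 2 / 8 + 8 * B ^ 2 * g ^ 2 * m ^ 2 / ν := by
    have e1 := Y (B * g * m) p
    have e2 : 8 * (B * g * m) ^ 2 / ν = 8 * B ^ 2 * g ^ 2 * m ^ 2 / ν := by ring
    rw [e2] at e1
    have e5 : B * m * p * f ≤ B * m * p * g := mul_le_mul_of_nonneg_left hfg (by positivity)
    have e6 : 2 * (B * m * (f * p)) = 2 * (B * m * p * f) := by ring
    have e7 : 2 * (B * g * m * p) = 2 * (B * m * p * g) := by ring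
    linarith
  have hR : 1024 * A ^ 4 * f ^ 4 * n ^ 2 / ν ^ 3 + 8 * A ^ 2 * g ^ 2 * n ^ 2 / ν + 8 * A ^ 2 * g ^ 2 * m ^ 2 / ν +
      2 * (8 * B ^ 2 * g ^ 2 * m ^ 2 / ν) ≤
      (1024 * A ^ 4 + 8 * A ^ 2 + 16 * B ^ 2) * (f ^ 4 / ν ^ 3 + g ^ 2 / ν) * (n ^ 2 + m ^ 2) := by
    have hF : 0 ≤ f ^ 4 / ν ^ 3 := by positivity
    have hG : 0 ≤ g ^ 2 / ν := by positivity
    have e1 : 1024 * A ^ 4 * f ^ 4 * n ^ 2 / ν ^ 3 = 1024 * A ^ 4 * (f ^ 4 / ν ^ 3) * n ^ 2 := by ring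
    have e2 : 8 * A ^ 2 * g ^ 2 * n ^ 2 / ν = 8 * A ^ 2 * (g ^ 2 / ν) * n ^ 2 := by ring
    have e3 : 8 * A ^ 2 * g ^ 2 * m ^ 2 / ν = 8 * A ^ 2 * (g ^ 2 / ν) * m ^ 2 := by ring
    have e4 : 2 * (8 * B ^ 2 * g ^ 2 * m ^ 2 / ν) = 16 * B ^ 2 * (g ^ 2 / ν) * m ^ 2 := by ring
    rw [e1, e2, e3, e4]
    generalize f ^ 4 / ν ^ 3 = F' at *
    generalize g ^ 2 / ν = G' at *
    have a1 : 0 ≤ A ^ 4 * F' * m ^ 2 := by positivity
    have a2 : 0 ≤ A ^ 4 * G' * (n ^ 2 + m ^ 2) := by positivity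
    have a3 : 0 ≤ A ^ 2 * F' * (n ^ 2 + m ^ 2) := by positivity
    have a4 : 0 ≤ B ^ 2 * F' * (n ^ 2 + m ^ 2) := by positivity
    have a5 : 0 ≤ B ^ 2 * G' * n ^ 2 := by positivity
    have e5 : (1024 * A ^ 4 + 8 * A ^ 2 + 16 * B ^ 2) * (F' + G') * (n ^ 2 + m ^ 2) =
        1024 * A ^ 4 * F' * n ^ 2 + 8 * A ^ 2 * G' * n ^ 2 + 8 * A ^ 2 * G' * m ^ 2 + 16 * B ^ 2 * G' * m ^ 2 +
        (1024 * (A ^ 4 * F' * m ^ 2) + 1024 * (A ^ 4 * G' * (n ^ 2 + m ^ 2)) +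
          8 * (A ^ 2 * F' * (n ^ 2 + m ^ 2)) + 16 * (B ^ 2 * F' * (n ^ 2 + m ^ 2)) +
          16 * (B ^ 2 * G' * n ^ 2)) := by ring
    rw [e5]
    linarith
  have e0 : 2 * (A * (n * p ^ 2 + f * r * p + g * (n * p) + m * (g * n))) +
      2 * (B * m * (q * p + q * g + f * p)) =
      2 * (A * (n * p ^ 2)) + 2 * (A * (f * r * p)) + 2 * (A * (g * (n * p))) + 2 * (A * (m * (g * n))) +
      2 * (B * m * (q * p)) + 2 * (B * m * (q * g)) + 2 * (B * m * (f * p)) := by ring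
  rw [e0]
  have hνp : 0 ≤ ν * p ^ 2 := by positivity
  linarith

theorem nei_sq_one {k : Z2} (hk : k ≠ 0) : 1 ≤ sq k := by
  have h1 : 1 ≤ k.1 ^ 2 + k.2 ^ 2 := by
    by_contra h
    push Not at h
    have h2 : k.1 ^ 2 + k.2 ^ 2 = 0 := by nlinarith [sq_nonneg k.1, sq_nonneg k.2]
    have h3 : k.1 = 0 := by nlinarith [sq_nonneg k.1, sq_nonneg k.2]
    have h4 : k.2 = 0 := by nlinarith [sq_nonneg k.1, sq_nonneg k.2]
    exact hk (Prod.ext h3 h4)
  unfold sq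
  exact_mod_cast h1

theorem nei_sq_zero : sq (0 : Z2) = 0 := by
  simp [sq]

/-- the weight `1 / |k|²` -/
noncomputable def w1 (k : Z2) : ℝ := if k = 0 then 0 else 1 / sq k

/-- the weight of the mean -/
noncomputable def w0 (k : Z2) : ℝ := if k = 0 then 1 else 0

theorem nei_w1 (k : Z2) : 0 ≤ w1 k ∧ w1 k ≤ 1 := by
  unfold w1
  split_ifs with h
  · exact ⟨le_rfl, zero_le_one⟩
  · have h1 := nei_sq_one h
    exact ⟨by positivity, by rw [div_le_one (by linarith)]; exact h1⟩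

theorem nei_w0 (k : Z2) : 0 ≤ w0 k ∧ w0 k ≤ 1 := by
  unfold w0
  split_ifs with h
  · exact ⟨zero_le_one, le_rfl⟩
  · exact ⟨le_rfl, zero_le_one⟩

theorem nei_hmS (f : Z2 → ℂ) : hmS f = ∑' k, w1 k * ‖f k‖ ^ 2 := by
  unfold hmS
  refine tsum_congr fun k => ?_
  unfold off w1
  by_cases h : k = 0
  · simp [h]
  · simp only [h, if_false]
    ring

theorem nei_mu0 (f : Z2 → ℂ) : ‖f 0‖ ^ 2 = ∑' k, w0 k * ‖f k‖ ^ 2 := by
  rw [tsum_eq_single 0]
  · simp [w0]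
  · intro k hk
    simp [w0, hk]

/-- the derivative of the part with the weight `1 / |k|²` -/
theorem nei_split (ν : ℝ) (f A : Z2 → ℂ) (h1 : Summable fun k => sq k * ‖f k‖ ^ 2)
    (h2 : Summable fun k => ‖f k‖ ^ 2) (h3 : Summable fun k => ‖A k‖ ^ 2) :
    ∑' k, w1 k * (-2 * ν * sq k ^ 2 * ‖f k‖ ^ 2 - 2 * ((starRingEnd ℂ) (f k) * A k).re) =
      -2 * ν * grS f - 2 * ∑' k, ((starRingEnd ℂ) (off f k) * A k).re / sq k := by
  have hs : Summable fun k => ((starRingEnd ℂ) (off f k) * A k).re / sq k := by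
    refine Summable.of_norm_bounded (h2.add h3) fun k => ?_
    by_cases h : k = 0
    · rw [h, nei_sq_zero, div_zero, norm_zero]
      positivity
    · have e1 := nei_sq_one h
      have e2 : off f k = f k := by simp [off, h]
      rw [e2, norm_div]
      have e3 : ‖((starRingEnd ℂ) (f k) * A k).re‖ ≤ ‖f k‖ * ‖A k‖ := by
        refine (Complex.abs_re_le_norm _).trans ?_
        rw [norm_mul, RCLike.norm_conj]
      have e4 : ‖sq k‖ = sq k := by rw [Real.norm_eq_abs, abs_of_nonneg (by linarith)]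
      rw [e4]
      have e5 : ‖((starRingEnd ℂ) (f k) * A k).re‖ / sq k ≤ ‖((starRingEnd ℂ) (f k) * A k).re‖ :=
        div_le_self (norm_nonneg _) e1
      have e6 := two_mul_le_add_sq ‖f k‖ ‖A k‖
      have e7 : 0 ≤ ‖f k‖ * ‖A k‖ := by positivity
      linarith
  have hp : ∀ k, w1 k * (-2 * ν * sq k ^ 2 * ‖f k‖ ^ 2 - 2 * ((starRingEnd ℂ) (f k) * A k).re) =
      -2 * ν * (sq k * ‖f k‖ ^ 2) - 2 * (((starRingEnd ℂ) (off f k) * A k).re / sq k) := by
    intro k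
    by_cases h : k = 0
    · simp [h, w1, off, nei_sq_zero]
    · have e1 := nei_sq_one h
      have e2 : off f k = f k := by simp [off, h]
      have e3 : w1 k = 1 / sq k := by simp [w1, h]
      have e4 : sq k ≠ 0 := by linarith
      rw [e2, e3]
      field_simp
  rw [tsum_congr hp, Summable.tsum_sub (h1.mul_left _) (hs.mul_left _), tsum_mul_left, tsum_mul_left]
  rfl

theorem NEI_thm (hWEN : WENStmt) (hHMW : HMWStmt) (hMNW : MNWStmt) (hGRF : GRFStmt) (hMMB : MMBStmt)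
    (hBIL : BILStmt) : NEIStmt := by
  obtain ⟨A, hA, HM⟩ := hHMW
  obtain ⟨B, hB, MN⟩ := hMNW
  obtain ⟨-, -, mc, -, me, mf⟩ := hMMB
  obtain ⟨ga, gb, -⟩ := hGRF
  refine ⟨1024 * A ^ 4 + 8 * A ^ 2 + 16 * B ^ 2, 1 / (16 * (A + B)), by positivity, by positivity, ?_⟩
  intro ν s T u v hν hs hT hu hv hRl t ht
  have hMu : Mem 2 (u t) := (me 2 s (u t) hs (hu.cts.1 t ht)).1
  have hMv : Mem 2 (v t) := (me 2 s (v t) hs (hv.cts.1 t ht)).1
  have hMw : Mem 2 (v t - u t) := (mf 2 (v t) (u t) hMv hMu).1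
  -- the nonlinear term is in `L²`
  have hAs : ∀ j, Summable fun k => ‖adv (v t) (v t) j k - adv (u t) (u t) j k‖ ^ 2 := by
    intro j
    obtain ⟨_, _, hb⟩ := hBIL 2 le_rfl
    have h1 := (hb (v t) (v t j) hMv (hMv j)).2.1
    have h2 := (hb (u t) (u t j) hMu (hMu j)).2.1
    have h3 := (mc _ _ _ h1 h2).1
    unfold MemS at h3
    refine h3.congr fun k => ?_
    rw [sub_self, Real.rpow_zero, one_mul]
    rfl
  have hd : HasDerivWithinAt (fun r => hm (v r - u r) + mu (v r - u r))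
      (∑ j, (∑' k, w1 k * (-2 * ν * sq k ^ 2 * ‖v t j k - u t j k‖ ^ 2 -
        2 * ((starRingEnd ℂ) (v t j k - u t j k) *
          (adv (v t) (v t) j k - adv (u t) (u t) j k)).re)) +
      ∑ j, (∑' k, w0 k * (-2 * ν * sq k ^ 2 * ‖v t j k - u t j k‖ ^ 2 -
        2 * ((starRingEnd ℂ) (v t j k - u t j k) *
          (adv (v t) (v t) j k - adv (u t) (u t) j k)).re))) (Set.Icc 0 T) t := by
    have h1 := HasDerivWithinAt.fun_sum (u := (Finset.univ : Finset (Fin 2)))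
      fun j _ => hWEN ν s T u v w1 hν hs hT hu hv nei_w1 j t ht
    have h0 := HasDerivWithinAt.fun_sum (u := (Finset.univ : Finset (Fin 2)))
      fun j _ => hWEN ν s T u v w0 hν hs hT hu hv nei_w0 j t ht
    refine (h1.add h0).congr_of_eventuallyEq (Filter.Eventually.of_forall fun r => ?_) ?_
    · change hm (v r - u r) + mu (v r - u r) = _
      unfold hm mu
      simp only [nei_hmS, nei_mu0]
      rfl
    · change hm (v t - u t) + mu (v t - u t) = _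
      unfold hm mu
      simp only [nei_hmS, nei_mu0]
      rfl
  refine ⟨_, hd, fun hsmall => ?_⟩
  -- the value of the derivative
  have e1 : ∀ j, ∑' k, w1 k * (-2 * ν * sq k ^ 2 * ‖v t j k - u t j k‖ ^ 2 -
        2 * ((starRingEnd ℂ) (v t j k - u t j k) *
          (adv (v t) (v t) j k - adv (u t) (u t) j k)).re) =
      -2 * ν * grS ((v t - u t) j) - 2 * ∑' k, ((starRingEnd ℂ) (off ((v t - u t) j) k) *
        (adv (v t) (v t) j k - adv (u t) (u t) j k)).re / sq k := fun j =>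
    nei_split ν ((v t - u t) j) (fun k => adv (v t) (v t) j k - adv (u t) (u t) j k)
      (ga _ (hMw j)).2.1 (ga _ (hMw j)).1 (hAs j)
  have e0 : ∀ j, ∑' k, w0 k * (-2 * ν * sq k ^ 2 * ‖v t j k - u t j k‖ ^ 2 -
        2 * ((starRingEnd ℂ) (v t j k - u t j k) *
          (adv (v t) (v t) j k - adv (u t) (u t) j k)).re) =
      -2 * ((starRingEnd ℂ) ((v t - u t) j 0) * (adv (v t) (v t) j 0 - adv (u t) (u t) j 0)).re := by
    intro j
    rw [tsum_eq_single 0]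
    · rw [nei_sq_zero]
      simp only [w0, if_true, Pi.sub_apply]
      ring
    · intro k hk
      simp [w0, hk]
  rw [Finset.sum_congr rfl fun j _ => e1 j, Finset.sum_congr rfl fun j _ => e0 j,
    Finset.sum_sub_distrib, ← Finset.mul_sum, ← Finset.mul_sum, ← Finset.mul_sum]
  have hH := HM (u t) (v t) hMu hMv (hRl t ht).1 (hRl t ht).2
  have hM := MN (u t) (v t) hMu hMv
  obtain ⟨-, -, g1, g2, g3, -, -, g4, -⟩ := gb _ hMw
  obtain ⟨-, -, u1, u2, u3, -, -, u4, -⟩ := gb _ hMu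
  have gP : grd (v t - u t) = ∑ j, grS ((v t - u t) j) := rfl
  rw [← gP]
  generalize hH' : (∑ j, ∑' k, ((starRingEnd ℂ) (off ((v t - u t) j) k) *
        (adv (v t) (v t) j k - adv (u t) (u t) j k)).re / sq k) = H at hH ⊢
  generalize hM' : (∑ j, ((starRingEnd ℂ) ((v t - u t) j 0) * (adv (v t) (v t) j 0 -
    adv (u t) (u t) j 0)).re) = M at hM ⊢
  generalize hm (v t - u t) = N at *
  generalize grd (v t - u t) = P at *
  generalize mu (v t - u t) = μ at *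
  generalize flu (v t - u t) = Fw at *
  generalize flu (u t) = Fu at *
  generalize grd (u t) = Gu at *
  have hP0 : 0 ≤ P := by linarith
  have hFu : 0 ≤ Fu := by linarith
  have hGu : 0 ≤ Gu := by linarith
  have hAB : 0 < A + B := by linarith
  have hc : 0 ≤ 1 / (16 * (A + B)) * ν := by positivity
  have hn : √N ≤ 1 / (16 * (A + B)) * ν := by
    rw [← Real.sqrt_sq hc]
    exact Real.sqrt_le_sqrt (by linarith)
  have hm' : √μ ≤ 1 / (16 * (A + B)) * ν := by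
    rw [← Real.sqrt_sq hc]
    exact Real.sqrt_le_sqrt (by linarith)
  have k1 : 16 * A * √N ≤ ν := by
    have h1 : 16 * A * √N ≤ 16 * A * (1 / (16 * (A + B)) * ν) := mul_le_mul_of_nonneg_left hn (by positivity)
    have h2 : 16 * A * (1 / (16 * (A + B)) * ν) = A / (A + B) * ν := by
      field_simp
    have h3 : A / (A + B) * ν ≤ 1 * ν :=
      mul_le_mul_of_nonneg_right (by rw [div_le_one hAB]; linarith) hν.le
    linarith
  have k2 : 16 * B * √μ ≤ ν := by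
    have h1 : 16 * B * √μ ≤ 16 * B * (1 / (16 * (A + B)) * ν) := mul_le_mul_of_nonneg_left hm' (by positivity)
    have h2 : 16 * B * (1 / (16 * (A + B)) * ν) = B / (A + B) * ν := by
      field_simp
    have h3 : B / (A + B) * ν ≤ 1 * ν :=
      mul_le_mul_of_nonneg_right (by rw [div_le_one hAB]; linarith) hν.le
    linarith
  have hY := nei_young A B ν √N √μ √P √Fw √Fu √Gu √(√N * √P) hA.le hB.le hν (Real.sqrt_nonneg _)
    (Real.sqrt_nonneg _) (Real.sqrt_nonneg _) (Real.sqrt_nonneg _)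
    (Real.sq_sqrt (mul_nonneg (Real.sqrt_nonneg _) (Real.sqrt_nonneg _))) (Real.sqrt_le_sqrt g3)
    (Real.sqrt_le_sqrt (g2.trans g3)) (Real.sqrt_le_sqrt u3) k1 k2
  have q1 : √P ^ 2 = P := Real.sq_sqrt hP0
  have q2 : √N ^ 2 = N := Real.sq_sqrt g1
  have q3 : √μ ^ 2 = μ := Real.sq_sqrt g4
  have q4 : √Fu ^ 4 = Fu ^ 2 := by
    have : √Fu ^ 4 = (√Fu ^ 2) ^ 2 := by ring
    rw [this, Real.sq_sqrt hFu]
  have q5 : √Gu ^ 2 = Gu := Real.sq_sqrt hGu
  rw [q1, q2, q3, q4, q5] at hY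
  have r1 : -(2 * H) ≤ 2 * (A * (√N * P + √Fu * √(√N * √P) * √P + √Gu * (√N * √P) + √μ * (√Gu * √N))) := by
    have := neg_abs_le H
    linarith
  have r2 : -(2 * M) ≤ 2 * (B * √μ * (√Fw * √P + √Fw * √Gu + √Fu * √P)) := by
    have := neg_abs_le M
    linarith
  linarith

end HB
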